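import Pool.Agent.Helper10K1.ML.Stm

/-!
# PRIM: open normal subgroups of an absolute Galois group are stabilizers of elements
-/

set_option autoImplicit false

namespace Pool.Agent.Helper46.ML

open Pool.Agent.Helper10K1.ML

universe u

theorem t_PRIM : S_PRIM.{u} := by
  intro F _ V hV hopen
  have hclosed : IsClosed (V : Set (G F)) := V.isClosed_of_isOpen hopen
  set L : IntermediateField F (SeparableClosure F) := IntermediateField.fixedField V with hL
  have h1 : L.fixingSubgroup = V :=
    InfiniteGalois.fixingSubgroup_fixedField (⟨V, hclosed⟩ : ClosedSubgroup (G F))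
  have h2 : FiniteDimensional F L := by
    rw [← InfiniteGalois.isOpen_iff_finite]
    rw [h1]
    exact hopen
  obtain ⟨α, hα⟩ := Field.exists_primitive_element F L
  have h3 : IntermediateField.adjoin F {(α : SeparableClosure F)} = L := by
    have h4 := congrArg IntermediateField.lift hα
    rwa [IntermediateField.lift_adjoin_simple, IntermediateField.lift_top] at h4
  refine ⟨(α : SeparableClosure F), fun γ => ⟨fun h => ?_, fun h => ?_⟩⟩
  · rw [← h1, IntermediateField.mem_fixingSubgroup_iff]
    intro x hx
    rw [← h3] at hx
    induction hx using IntermediateField.adjoin_induction with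
    | mem x hx => rw [Set.mem_singleton_iff.1 hx]; exact h
    | algebraMap x => exact γ.commutes x
    | add x y _ _ hx hy => rw [map_add, hx, hy]
    | inv x _ hx => rw [map_inv₀, hx]
    | mul x y _ _ hx hy => rw [map_mul, hx, hy]
  · rw [← h1, IntermediateField.mem_fixingSubgroup_iff] at h
    exact h _ α.2

end Pool.Agent.Helper46.ML
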